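import Pool.Agent.Y485.UGS.Stm

/-!
# Balls in groups (helper638, project UGS)
-/

set_option autoImplicit false

namespace Pool.Agent.Y638.UGS

open Pool.Agent.Y485.UGS

section

variable {G : Type} [Group G] {X : Finset G}

theorem ball_finite (X : Finset G) (n : ℕ) : (Ball X n).Finite := by
  classical
  have h1 : ({x : G | x ∈ X ∨ x⁻¹ ∈ X}).Finite := by
    have h2 : {x : G | x ∈ X ∨ x⁻¹ ∈ X} = (X : Set G) ∪ (fun x : G => x⁻¹) ⁻¹' (X : Set G) := by
      ext x
      simp
    rw [h2]
    exact (Finset.finite_toSet X).union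
      ((Finset.finite_toSet X).preimage (inv_injective.injOn))
  have : Finite {x : G | x ∈ X ∨ x⁻¹ ∈ X} := h1.to_subtype
  have h3 := List.finite_length_le {x : G | x ∈ X ∨ x⁻¹ ∈ X} n
  refine (h3.image (fun l => (l.map Subtype.val).prod)).subset ?_
  rintro g ⟨l, hl, hx, rfl⟩
  refine ⟨l.pmap (fun x hx => ⟨x, hx⟩) hx, ?_, ?_⟩
  · simpa using hl
  · simp only [List.map_pmap]
    rw [List.pmap_eq_map, List.map_id']

theorem one_mem_ball (n : ℕ) : (1 : G) ∈ Ball X n :=
  ⟨[], Nat.zero_le _, by simp, rfl⟩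

theorem ball_mono {a b : ℕ} (h : a ≤ b) {g : G} (hg : g ∈ Ball X a) : g ∈ Ball X b := by
  obtain ⟨l, h1, h2, h3⟩ := hg
  exact ⟨l, h1.trans h, h2, h3⟩

theorem ball_mul {a b : ℕ} {g h : G} (hg : g ∈ Ball X a) (hh : h ∈ Ball X b) :
    g * h ∈ Ball X (a + b) := by
  obtain ⟨l, h1, h2, rfl⟩ := hg
  obtain ⟨l', h1', h2', rfl⟩ := hh
  refine ⟨l ++ l', ?_, ?_, List.prod_append⟩
  · rw [List.length_append]
    omega
  · intro x hx
    rcases List.mem_append.1 hx with hx | hx
    · exact h2 x hx
    · exact h2' x hx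

theorem ball_inv {a : ℕ} {g : G} (hg : g ∈ Ball X a) : g⁻¹ ∈ Ball X a := by
  obtain ⟨l, h1, h2, rfl⟩ := hg
  refine ⟨(l.map fun x => x⁻¹).reverse, ?_, ?_, ?_⟩
  · simpa using h1
  · intro x hx
    simp only [List.mem_reverse, List.mem_map] at hx
    obtain ⟨y, hy, rfl⟩ := hx
    rcases h2 y hy with h | h
    · right
      rwa [inv_inv]
    · left
      exact h
  · rw [List.prod_inv_reverse]

theorem ball_pow {a : ℕ} {g : G} (hg : g ∈ Ball X a) (k : ℕ) : g ^ k ∈ Ball X (k * a) := by
  induction k with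
  | zero => rw [pow_zero]; exact one_mem_ball _
  | succ k ih =>
    rw [pow_succ]
    refine ball_mono (le_of_eq ?_) (ball_mul ih hg)
    ring

theorem mem_ball_one {x : G} (h : x ∈ X ∨ x⁻¹ ∈ X) : x ∈ Ball X 1 :=
  ⟨[x], by simp, by simpa using h, by simp⟩

/-- every element is in some ball -/
theorem exists_ball (hX : Subgroup.closure (X : Set G) = ⊤) (g : G) : ∃ n, g ∈ Ball X n := by
  have h : g ∈ Subgroup.closure (X : Set G) := hX ▸ Subgroup.mem_top g
  induction h using Subgroup.closure_induction with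
  | mem x hx => exact ⟨1, mem_ball_one (Or.inl hx)⟩
  | one => exact ⟨0, one_mem_ball _⟩
  | mul x y _ _ h1 h2 =>
    obtain ⟨a, ha⟩ := h1
    obtain ⟨b, hb⟩ := h2
    exact ⟨a + b, ball_mul ha hb⟩
  | inv x _ h1 =>
    obtain ⟨a, ha⟩ := h1
    exact ⟨a, ball_inv ha⟩

end

/-! ### short relations -/

section

variable {G : Type} [Group G]

theorem cl_mul (H : Subgroup G) (a b : H) : cl H (a * b) = cl H a + cl H b := by
  unfold cl
  rw [map_mul, ofMul_mul]

theorem cl_one (H : Subgroup G) : cl H 1 = 0 := by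
  unfold cl
  rw [map_one, ofMul_one]

theorem cl_conj (H : Subgroup G) [H.Normal] (g : G) (a : H) :
    cl H (MulAut.conjNormal g a) = cj H g (cl H a) := rfl

/-- the partial products -/
def pp (s a : G) (m : ℕ) (e : ℕ → Bool) : ℕ → G
  | 0 => 1
  | k + 1 => pp s a m e k * ((if e k = true then a else 1) * s ^ m)

/-- the elements of `H` -/
def hh (H : Subgroup G) [H.Normal] (s : G) (a : H) (m : ℕ) (e : ℕ → Bool) : ℕ → H
  | 0 => 1
  | k + 1 => hh H s a m e k * MulAut.conjNormal (s ^ (m * k)) (if e k = true then a else 1)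

theorem hh_coe (H : Subgroup G) [H.Normal] (s : G) (a : H) (m : ℕ) (e : ℕ → Bool) (k : ℕ) :
    ((hh H s a m e k : H) : G) = pp s (a : G) m e k * (s ^ (m * k))⁻¹ := by
  induction k with
  | zero => simp [hh, pp]
  | succ k ih =>
    rw [hh, pp, Subgroup.coe_mul, ih, MulAut.conjNormal_apply]
    have h1 : (((if e k = true then a else 1 : H)) : G) = if e k = true then (a : G) else 1 := by
      split <;> simp
    rw [h1, Nat.mul_succ, pow_add]
    group

theorem hh_cl (H : Subgroup G) [H.Normal] (s : G) (a : H) (m : ℕ) (e : ℕ → Bool) (k : ℕ) :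
    cl H (hh H s a m e k) =
      ∑ t ∈ Finset.range k, (if e t = true then (1 : ℤ) else 0) • ((cj H s) ^ (m * t)) (cl H a) := by
  induction k with
  | zero => simp [hh, cl_one]
  | succ k ih =>
    rw [hh, cl_mul, ih, Finset.sum_range_succ, cl_conj, map_pow]
    congr 1
    split
    · rw [one_smul]
    · rw [zero_smul, cl_one, map_zero]

theorem pp_ball {X : Finset G} {s a : G} {La Ls : ℕ} (m : ℕ) (hs : s ∈ Ball X Ls)
    (ha : a ∈ Ball X La) (e : ℕ → Bool) (k : ℕ) : pp s a m e k ∈ Ball X (k * (La + m * Ls)) := by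
  induction k with
  | zero => exact one_mem_ball _
  | succ k ih =>
    rw [pp]
    have h1 : (if e k = true then a else 1) ∈ Ball X La := by
      split
      · exact ha
      · exact one_mem_ball _
    refine ball_mono (le_of_eq ?_) (ball_mul ih (ball_mul h1 (ball_pow hs m)))
    ring

theorem rel : S_REL := by
  intro G _ X H _ s a N n m La Ls hs ha hn hcard
  classical
  set ex : (Fin N → Bool) → ℕ → Bool := fun e t => if h : t < N then e ⟨t, h⟩ else false with hex
  set f : (Fin N → Bool) → G := fun e => ((hh H s a m (ex e) N : H) : G) with hf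
  have hfb : ∀ e, f e ∈ Ball X n := by
    intro e
    rw [hf]
    simp only
    rw [hh_coe]
    refine ball_mono ?_ (ball_mul (pp_ball m hs ha _ N) (ball_inv (ball_pow hs (m * N))))
    refine le_trans (le_of_eq ?_) hn
    ring
  have hninj : ¬ Function.Injective f := by
    intro hinj
    have h1 : (Set.univ : Set (Fin N → Bool)).ncard ≤ (Ball X n).ncard :=
      Set.ncard_le_ncard_of_injOn f (fun e _ => hfb e) hinj.injOn (ball_finite X n)
    rw [Set.ncard_univ, Nat.card_eq_fintype_card, Fintype.card_fun, Fintype.card_bool,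
      Fintype.card_fin] at h1
    omega
  rw [Function.not_injective_iff] at hninj
  obtain ⟨e, e', h1, h2⟩ := hninj
  refine ⟨fun t => (if e t = true then 1 else 0) - (if e' t = true then 1 else 0), ?_, ?_, ?_⟩
  · intro h
    apply h2
    funext t
    have h3 := congrFun h t
    simp only [Pi.zero_apply] at h3
    cases h4 : e t <;> cases h5 : e' t <;> simp_all
  · intro t
    cases h4 : e t <;> cases h5 : e' t <;> simp [h4, h5]
  · have h3 : hh H s a m (ex e) N = hh H s a m (ex e') N := Subtype.ext h1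
    have h4 := congrArg (cl H) h3
    rw [hh_cl, hh_cl, Finset.sum_range, Finset.sum_range] at h4
    have h5 : ∀ (e : Fin N → Bool) (t : Fin N), ex e (t : ℕ) = e t := by
      intro e t
      simp [hex]
    simp only [h5] at h4
    simp only [sub_smul, Finset.sum_sub_distrib]
    rw [h4, sub_self]

end

end Pool.Agent.Y638.UGS
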