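import Pool.Agent.Y638.UGS.Ball

/-!
# Schreier generators (job UGS-SCH, helper638)
-/

set_option autoImplicit false

namespace Pool.Agent.Y638.UGS

open Pool.Agent.Y485.UGS

section

variable {G : Type} [Group G] {X : Finset G}

theorem ball_cons {d : ℕ} {g : G} (h : g ∈ Ball X (d + 1)) (h0 : g ∉ Ball X d) :
    ∃ x g' : G, (x ∈ X ∨ x⁻¹ ∈ X) ∧ g' ∈ Ball X d ∧ g = x * g' := by
  obtain ⟨l, h1, h2, rfl⟩ := h
  rcases l with _ | ⟨x, l⟩
  · exact (h0 (one_mem_ball d)).elim
  · refine ⟨x, l.prod, h2 x (by simp), ⟨l, by simpa using h1, fun y hy => h2 y (by simp [hy]),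
      rfl⟩, List.prod_cons⟩

/-- every coset of a subgroup of index at most `m` has a representative of length at most `m` -/
theorem exists_rep (hX : Subgroup.closure (X : Set G) = ⊤) (H : Subgroup G) (m : ℕ)
    (h0 : H.index ≠ 0) (hm : H.index ≤ m) (g : G) : ∃ t ∈ Ball X m, t⁻¹ * g ∈ H := by
  classical
  have : H.FiniteIndex := ⟨h0⟩
  have hex : ∀ q : G ⧸ H, ∃ n, ∃ t ∈ Ball X n, (t : G ⧸ H) = q := by
    intro q
    induction q using QuotientGroup.induction_on with
    | _ g =>
      obtain ⟨n, hn⟩ := exists_ball hX g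
      exact ⟨n, g, hn, rfl⟩
  set f : G ⧸ H → ℕ := fun q => Nat.find (hex q) with hf
  have hfs : ∀ q, ∃ t ∈ Ball X (f q), (t : G ⧸ H) = q := fun q => Nat.find_spec (hex q)
  have hfm : ∀ q n, (∃ t ∈ Ball X n, (t : G ⧸ H) = q) → f q ≤ n := fun q n h =>
    Nat.find_min' (hex q) h
  have hdown : ∀ d, ∀ q, f q = d + 1 → ∃ q', f q' = d := by
    intro d q hq
    obtain ⟨t, ht, htq⟩ := hfs q
    rw [hq] at ht
    have hn : t ∉ Ball X d := by
      intro h
      have := hfm q d ⟨t, h, htq⟩
      omega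
    obtain ⟨x, g', hx, hg', rfl⟩ := ball_cons ht hn
    refine ⟨(g' : G ⧸ H), ?_⟩
    have h1 : f (g' : G ⧸ H) ≤ d := hfm _ d ⟨g', hg', rfl⟩
    by_contra h2
    have h3 : f (g' : G ⧸ H) + 1 ≤ d := by omega
    obtain ⟨t', ht', htq'⟩ := hfs (g' : G ⧸ H)
    have h4 : x * t' ∈ Ball X (1 + f (g' : G ⧸ H)) := ball_mul (mem_ball_one hx) ht'
    have h5 : ((x * t' : G) : G ⧸ H) = q := by
      rw [← htq, QuotientGroup.eq]
      have h6 := (QuotientGroup.eq).1 htq'
      have h7 : (x * t')⁻¹ * (x * g') = t'⁻¹ * g' := by group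
      rw [h7]
      exact h6
    have h6 := hfm q _ ⟨x * t', h4, h5⟩
    omega
  have hall : ∀ d, ∀ q, f q = d → ∀ i, i ≤ d → ∃ q', f q' = i := by
    intro d
    induction d with
    | zero =>
      intro q hq i hi
      exact ⟨q, by omega⟩
    | succ d ih =>
      intro q hq i hi
      by_cases h : i = d + 1
      · exact ⟨q, by omega⟩
      · obtain ⟨q', hq'⟩ := hdown d q hq
        exact ih q' hq' i (by omega)
  have hlt : ∀ q, f q < H.index := by
    intro q
    have hfin : Finite (G ⧸ H) := inferInstance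
    have h1 : (Set.Iio (f q + 1)) ⊆ Set.range f := by
      intro i hi
      exact hall (f q) q rfl i (Nat.lt_succ_iff.1 hi)
    have h2 : (Set.Iio (f q + 1)).ncard ≤ (Set.range f).ncard :=
      Set.ncard_le_ncard h1 (Set.finite_range f)
    have h3 : (Set.range f).ncard ≤ Nat.card (G ⧸ H) := by
      rw [← Set.image_univ, ← Set.ncard_univ]
      exact Set.ncard_image_le Set.finite_univ
    have h4 : (Set.Iio (f q + 1)).ncard = f q + 1 := by
      rw [Set.ncard_eq_toFinset_card']
      simp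
    have h5 : H.index = Nat.card (G ⧸ H) := rfl
    omega
  obtain ⟨t, ht, htq⟩ := hfs (g : G ⧸ H)
  refine ⟨t, ball_mono ?_ ht, (QuotientGroup.eq).1 htq⟩
  have := hlt (g : G ⧸ H)
  omega

theorem sch : S_SCH := by
  intro G _ X hX H m h0 hm
  classical
  have hfin : {h : H | (h : G) ∈ Ball X (2 * m + 1)}.Finite :=
    (ball_finite X (2 * m + 1)).preimage (Subtype.val_injective.injOn)
  refine ⟨hfin.toFinset, ?_, ?_⟩
  · set K : Subgroup H := Subgroup.closure (hfin.toFinset : Set H) with hK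
    have hY : ∀ h : H, (h : G) ∈ Ball X (2 * m + 1) → h ∈ K := by
      intro h hh
      apply Subgroup.subset_closure
      rw [Set.Finite.coe_toFinset]
      exact hh
    have key : ∀ l : List G, (∀ x ∈ l, x ∈ X ∨ x⁻¹ ∈ X) →
        ∃ t ∈ Ball X m, ∃ κ : H, κ ∈ K ∧ l.prod = t * κ := by
      intro l
      induction l with
      | nil =>
        intro _
        exact ⟨1, one_mem_ball _, 1, one_mem K, by simp⟩
      | cons x l ih =>
        intro hl
        obtain ⟨t, ht, κ, hκ, h1⟩ := ih (fun y hy => hl y (by simp [hy]))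
        obtain ⟨t', ht', h2⟩ := exists_rep hX H m h0 hm (x * t)
        have h3 : t'⁻¹ * (x * t) ∈ Ball X (2 * m + 1) := by
          refine ball_mono (le_of_eq ?_)
            (ball_mul (ball_inv ht') (ball_mul (mem_ball_one (hl x (by simp))) ht))
          ring
        refine ⟨t', ht', ⟨t'⁻¹ * (x * t), h2⟩ * κ, mul_mem (hY _ h3) hκ, ?_⟩
        rw [List.prod_cons, h1, Subgroup.coe_mul]
        group
    rw [eq_top_iff]
    intro h _
    obtain ⟨n, l, _, hl, hlp⟩ := exists_ball hX (h : G)
    obtain ⟨t, ht, κ, hκ, h1⟩ := key l hl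
    have h2 : t = ((h * κ⁻¹ : H) : G) := by
      rw [Subgroup.coe_mul, Subgroup.coe_inv, ← hlp, h1]
      group
    have h3 : h * κ⁻¹ ∈ K := hY _ (h2 ▸ ball_mono (by omega) ht)
    have h4 : h = h * κ⁻¹ * κ := by group
    rw [h4]
    exact mul_mem h3 hκ
  · intro k
    refine Set.ncard_le_ncard_of_injOn (fun h : H => (h : G)) ?_ (Subtype.val_injective.injOn)
      (ball_finite X _)
    rintro h ⟨l, hl, hx, rfl⟩
    have hx' : ∀ y ∈ l, (y : G) ∈ Ball X (2 * m + 1) := by
      intro y hy
      rcases hx y hy with h | h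
      · exact hfin.mem_toFinset.1 h
      · have := ball_inv (hfin.mem_toFinset.1 h : ((y⁻¹ : H) : G) ∈ Ball X (2 * m + 1))
        rwa [Subgroup.coe_inv, inv_inv] at this
    have h2 : ∀ l : List H, (∀ y ∈ l, (y : G) ∈ Ball X (2 * m + 1)) →
        ((l.prod : H) : G) ∈ Ball X ((2 * m + 1) * l.length) := by
      intro l
      induction l with
      | nil =>
        intro _
        simpa using one_mem_ball _
      | cons y l ih =>
        intro h
        rw [List.prod_cons, Subgroup.coe_mul]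
        refine ball_mono (le_of_eq ?_)
          (ball_mul (h y (by simp)) (ih (fun z hz => h z (by simp [hz]))))
        rw [List.length_cons]
        ring
    exact ball_mono (Nat.mul_le_mul_left _ hl) (h2 l hx')

end

end Pool.Agent.Y638.UGS
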